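import Mathlib

/-!
An extension of the AP-avoiding heap game whose set of P-positions is much denser (infinitely often)
than the one of the base game.
-/

namespace Pool.Agent.Results.MP_c84e26_co.DenserExtension

open Filter Finset

/-- The base ruleset `{ {d, 2d} : d ≥ 1 }`. -/
def M0 : Set (Finset ℕ) := {M | ∃ d : ℕ, 1 ≤ d ∧ M = {d, 2 * d}}

/-- The set `A_R` of P-positions of the ruleset `R`: `n ∈ A_R` if and only if there is no `M ∈ R`
with `max M ≤ n` and `{n - m : m ∈ M} ⊆ A_R`.  (The elements of the members of a ruleset are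
positive; this is repeated in the formula to make the recursion well-founded.) -/
def InA (R : Set (Finset ℕ)) (n : ℕ) : Prop :=
  ∀ M ∈ R, ∀ _ : (∀ m ∈ M, 0 < m ∧ m ≤ n), ¬ ∀ m, ∀ _ : m ∈ M, InA R (n - m)
termination_by n
decreasing_by
  rename_i h1 h2
  have := h1 _ h2
  omega

open Classical in
/-- The counting function `A_R(x) = #{i ∈ A_R : i < x}`. -/
noncomputable def cnt (R : Set (Finset ℕ)) (x : ℕ) : ℕ := ((range x).filter (InA R)).card

/-! ### From a set to a ruleset -/

open Classical in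
/-- The move from `n` to all smaller elements of `A`. -/
noncomputable def mv (A : Set ℕ) (n : ℕ) : Finset ℕ :=
  ((range n).filter (fun a => a ∈ A)).image (fun a => n - a)

theorem mem_mv (A : Set ℕ) (n m : ℕ) : m ∈ mv A n ↔ ∃ a, a < n ∧ a ∈ A ∧ n - a = m := by
  simp only [mv, mem_image, mem_filter, mem_range]
  constructor
  · rintro ⟨a, ⟨h1, h2⟩, h3⟩; exact ⟨a, h1, h2, h3⟩
  · rintro ⟨a, h1, h2, h3⟩; exact ⟨a, ⟨h1, h2⟩, h3⟩

/-- The additional rules. -/
def M' (A : Set ℕ) : Set (Finset ℕ) := {M | ∃ n, n ∉ A ∧ M = mv A n}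

theorem inA_iff (A : Set ℕ) (h0 : 0 ∈ A) (h1 : 1 ∈ A) (hAP : ThreeAPFree A)
    (hpair : ∀ t, 1 ≤ t → t ∈ A → t + 1 ∉ A) (n : ℕ) : InA (M0 ∪ M' A) n ↔ n ∈ A := by
  induction n using Nat.strong_induction_on with
  | _ n ih =>
    constructor
    · intro h
      by_contra hn
      rw [InA] at h
      refine h (mv A n) (Or.inr ⟨n, hn, rfl⟩) ?_ ?_
      · intro m hm
        rw [mem_mv] at hm
        obtain ⟨a, ha, -, rfl⟩ := hm
        omega
      · intro m hm
        rw [mem_mv] at hm
        obtain ⟨a, ha, haA, rfl⟩ := hm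
        rw [show n - (n - a) = a by omega, ih a ha]
        exact haA
    · intro hn
      rw [InA]
      rintro M (⟨d, hd, rfl⟩ | ⟨k, hk, rfl⟩) hM hall
      · have e1 := hM d (by simp)
        have e2 := hM (2 * d) (by simp)
        have a1 := hall d (by simp)
        have a2 := hall (2 * d) (by simp)
        rw [ih _ (by omega)] at a1 a2
        have := hAP a2 a1 hn (by omega)
        omega
      · have hk2 : 2 ≤ k := by
          rcases Nat.lt_or_ge k 2 with h | h
          · interval_cases k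
            · exact absurd h0 hk
            · exact absurd h1 hk
          · exact h
        have m0 : k ∈ mv A k := by
          rw [mem_mv]; exact ⟨0, by omega, h0, by omega⟩
        have m1 : k - 1 ∈ mv A k := by
          rw [mem_mv]; exact ⟨1, by omega, h1, by omega⟩
        have b0 := hM k m0
        have a0 := hall k m0
        have a1 := hall (k - 1) m1
        rw [ih _ (by omega)] at a0 a1
        have hkn : k ≠ n := fun h => hk (h ▸ hn)
        apply hpair (n - k) (by omega) a0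
        rwa [show n - k + 1 = n - (k - 1) by omega]

/-! ### The set -/

/-- Behrend's bound beats every power below one. -/
theorem roth_large (c : ℝ) (hc : c < 1) (K : ℝ) (m : ℕ) :
    ∃ N : ℕ, m ≤ N ∧ 1 ≤ N ∧ K * (N : ℝ) ^ c ≤ rothNumberNat N := by
  set δ : ℝ := 1 - c with hδ
  have hδ0 : 0 < δ := by rw [hδ]; linarith
  set Q : ℝ := max K 1 with hQ
  have hQ1 : 1 ≤ Q := le_max_right _ _
  set L : ℝ := max 1 ((4 + Real.log Q) / δ) with hL
  have hlogQ : 0 ≤ Real.log Q := Real.log_nonneg hQ1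
  set N : ℕ := max (max m 1) ⌈Real.exp (L ^ 2)⌉₊ with hN
  have hN1 : 1 ≤ N := le_trans (le_max_right _ _) (le_max_left _ _)
  have hNpos : (0 : ℝ) < N := by exact_mod_cast hN1
  have hNexp : Real.exp (L ^ 2) ≤ (N : ℝ) := by
    refine (Nat.le_ceil _).trans ?_
    exact_mod_cast le_max_right _ _
  refine ⟨N, le_trans (le_max_left _ _) (le_max_left _ _), hN1, ?_⟩
  refine le_trans ?_ Behrend.roth_lower_bound
  have hlogN : L ^ 2 ≤ Real.log N := by
    rw [Real.le_log_iff_exp_le hNpos]; exact hNexp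
  set s : ℝ := √(Real.log N) with hs
  have hL1 : 1 ≤ L := le_max_left _ _
  have hsL : L ≤ s := Real.le_sqrt_of_sq_le hlogN
  have hlogN0 : 0 ≤ Real.log N := le_trans (by positivity) hlogN
  have hs2 : s ^ 2 = Real.log N := Real.sq_sqrt hlogN0
  have hL2 : (4 + Real.log Q) / δ ≤ s := le_trans (le_max_right _ _) hsL
  have hkey : Real.log Q ≤ δ * s ^ 2 - 4 * s := by
    have h1 : 4 + Real.log Q ≤ δ * s := by
      rw [div_le_iff₀ hδ0] at hL2; linarith
    have h2 : 1 ≤ s := le_trans hL1 hsL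
    nlinarith
  have e1 : (N : ℝ) ^ c = Real.exp (c * s ^ 2) := by
    rw [hs2, Real.rpow_def_of_pos hNpos, mul_comm]
  have e2 : (N : ℝ) = Real.exp (s ^ 2) := by
    rw [hs2, Real.exp_log hNpos]
  rw [e1]
  nth_rewrite 1 [e2]
  rw [← Real.exp_add]
  calc K * Real.exp (c * s ^ 2) ≤ Q * Real.exp (c * s ^ 2) := by
        apply mul_le_mul_of_nonneg_right (le_max_left _ _) (Real.exp_pos _).le
    _ = Real.exp (Real.log Q) * Real.exp (c * s ^ 2) := by
        rw [Real.exp_log (by linarith)]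
    _ = Real.exp (Real.log Q + c * s ^ 2) := by rw [Real.exp_add]
    _ ≤ Real.exp (s ^ 2 + -4 * s) := by
        apply Real.exp_le_exp.2
        have : s ^ 2 = c * s ^ 2 + δ * s ^ 2 := by rw [hδ]; ring
        linarith

/-- The exponent used for the `k`-th block. -/
noncomputable def ex (k : ℕ) : ℝ := 1 - 1 / ((k : ℝ) + 2)

theorem ex_lt (k : ℕ) : ex k < 1 := by
  unfold ex
  have : (0 : ℝ) < 1 / ((k : ℝ) + 2) := by positivity
  linarith

/-- The lengths of the blocks. -/
noncomputable def len : ℕ → ℕ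
  | 0 => (roth_large (ex 0) (ex_lt 0) 0 1).choose
  | (k + 1) => (roth_large (ex (k + 1)) (ex_lt (k + 1)) (k + 1) (6 * len k)).choose

theorem len_pos (k : ℕ) : 1 ≤ len k := by
  cases k with
  | zero => rw [len]; exact (roth_large (ex 0) (ex_lt 0) 0 1).choose_spec.2.1
  | succ k =>
    rw [len]
    exact (roth_large (ex (k + 1)) (ex_lt (k + 1)) (k + 1) (6 * len k)).choose_spec.2.1

theorem len_roth (k : ℕ) : (k : ℝ) * (len k : ℝ) ^ (ex k) ≤ rothNumberNat (len k) := by
  cases k with
  | zero =>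
    rw [len]
    have := (roth_large (ex 0) (ex_lt 0) 0 1).choose_spec.2.2
    simpa using this
  | succ k =>
    rw [len]
    have := (roth_large (ex (k + 1)) (ex_lt (k + 1)) (k + 1) (6 * len k)).choose_spec.2.2
    push_cast
    exact this

theorem len_succ (k : ℕ) : 6 * len k ≤ len (k + 1) := by
  conv_rhs => rw [len]
  exact (roth_large (ex (k + 1)) (ex_lt (k + 1)) (k + 1) (6 * len k)).choose_spec.1

theorem len_lt {i j : ℕ} (h : i < j) : 6 * len i ≤ len j := by
  induction j with
  | zero => omega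
  | succ j ih =>
    rcases Nat.lt_succ_iff_lt_or_eq.1 h with h' | h'
    · have := ih h'
      have := len_succ j
      omega
    · subst h'; exact len_succ i

/-- The blocks. -/
noncomputable def blk (k : ℕ) : Finset ℕ := (rothNumberNat_spec (len k)).choose

theorem blk_lt {k c : ℕ} (h : c ∈ blk k) : c < len k :=
  mem_range.1 ((rothNumberNat_spec (len k)).choose_spec.1 h)

theorem blk_card (k : ℕ) : (blk k).card = rothNumberNat (len k) :=
  (rothNumberNat_spec (len k)).choose_spec.2.1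

theorem blk_free (k : ℕ) : ThreeAPFree (blk k : Set ℕ) :=
  (rothNumberNat_spec (len k)).choose_spec.2.2

/-- The union of the shifted blocks. -/
def B : Set ℕ := {b | ∃ k, ∃ c ∈ blk k, b = 2 * len k + c}

theorem B_pos {b : ℕ} (h : b ∈ B) : 0 < b := by
  obtain ⟨k, c, hc, rfl⟩ := h
  have := len_pos k
  omega

theorem B_free_aux {x y z : ℕ} (hx : x ∈ B) (hy : y ∈ B) (hz : z ∈ B) (hxz : x ≤ z)
    (h : x + z = y + y) : x = y := by
  obtain ⟨i, a, ha, rfl⟩ := hx
  obtain ⟨j, b, hb, rfl⟩ := hy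
  obtain ⟨l, c, hc, rfl⟩ := hz
  have ha' := blk_lt ha
  have hb' := blk_lt hb
  have hc' := blk_lt hc
  have pi := len_pos i
  have pj := len_pos j
  have pl := len_pos l
  have hjl : j = l := by
    rcases lt_trichotomy j l with h1 | h1 | h1
    · have := len_lt h1; omega
    · exact h1
    · have := len_lt h1; omega
  subst hjl
  have hil : i = j := by
    rcases lt_trichotomy i j with h1 | h1 | h1
    · have := len_lt h1; omega
    · exact h1
    · have := len_lt h1; omega
  subst hil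
  have := blk_free i ha hb hc (by omega)
  omega

theorem B_free : ThreeAPFree B := by
  intro x hx y hy z hz h
  rcases le_total x z with h1 | h1
  · exact B_free_aux hx hy hz h1 h
  · have := B_free_aux hz hy hx h1 (by omega)
    omega

/-- The set of P-positions of the extension. -/
def A : Set ℕ := {n | n = 0 ∨ n = 1 ∨ ∃ b ∈ B, n = 4 * b + 2}

theorem A_free : ThreeAPFree A := by
  intro x hx y hy z hz h
  rcases hx with rfl | rfl | ⟨a, ha, rfl⟩ <;> rcases hy with rfl | rfl | ⟨b, hb, rfl⟩ <;>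
    rcases hz with rfl | rfl | ⟨c, hc, rfl⟩ <;> try omega
  · have := B_pos hc; omega
  · have := B_pos ha; omega
  · have := B_free ha hb hc (by omega)
    omega

theorem A_pair (t : ℕ) (ht : 1 ≤ t) (h : t ∈ A) : t + 1 ∉ A := by
  intro h'
  rcases h with rfl | rfl | ⟨a, ha, rfl⟩ <;> rcases h' with h' | h' | ⟨b, hb, h'⟩ <;> try omega
  have := B_pos hb
  omega

theorem inA (n : ℕ) : InA (M0 ∪ M' A) n ↔ n ∈ A :=
  inA_iff A (Or.inl rfl) (Or.inr (Or.inl rfl)) A_free A_pair n

theorem cnt_ge (k : ℕ) : rothNumberNat (len k) ≤ cnt (M0 ∪ M' A) (12 * len k + 2) := by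
  classical
  rw [← blk_card]
  unfold cnt
  apply Finset.card_le_card_of_injOn (fun c => 4 * (2 * len k + c) + 2)
  · intro c hc
    have hc' : c ∈ blk k := hc
    have := blk_lt hc'
    simp only [coe_filter, mem_range, Set.mem_setOf_eq]
    refine ⟨by omega, ?_⟩
    rw [inA]
    exact Or.inr (Or.inr ⟨2 * len k + c, ⟨k, c, hc', rfl⟩, rfl⟩)
  · intro c _ d _ h
    simp only at h
    omega

/-- The ratio is large infinitely often. -/
theorem freq (c : ℝ) (hc : c < 1) (C : ℝ) :
    ∃ᶠ x : ℕ in atTop, C ≤ (cnt (M0 ∪ M' A) x : ℝ) / (x : ℝ) ^ c := by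
  rw [frequently_atTop]
  intro x0
  -- reduce to a nonnegative exponent
  set e : ℝ := max c 0 with he
  have he1 : e < 1 := max_lt hc one_pos
  have he0 : 0 ≤ e := le_max_right _ _
  obtain ⟨k, hk1, hk2, hk3⟩ : ∃ k : ℕ, x0 ≤ k ∧ e ≤ ex k ∧ max C 0 * 14 ≤ k := by
    have hd : 0 < 1 - e := by linarith
    obtain ⟨n1, hn1⟩ := exists_nat_ge (1 / (1 - e))
    obtain ⟨n2, hn2⟩ := exists_nat_ge (max C 0 * 14)
    refine ⟨max x0 (max n1 n2), le_max_left _ _, ?_, ?_⟩
    · unfold ex
      set k := max x0 (max n1 n2)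
      have h1 : (n1 : ℝ) ≤ k := by
        exact_mod_cast (le_max_left n1 n2).trans (le_max_right _ _)
      have h2 : 1 / (1 - e) ≤ (k : ℝ) + 2 := by linarith
      have h3 : 1 / ((k : ℝ) + 2) ≤ 1 - e := by
        rw [div_le_iff₀ (by positivity)]
        rw [div_le_iff₀ hd] at h2
        linarith
      linarith
    · refine hn2.trans ?_
      exact_mod_cast (le_max_right n1 n2).trans (le_max_right _ _)
  have hlen : k ≤ len k := by
    clear hk1 hk2 hk3
    induction k with
    | zero => omega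
    | succ k ih => have := len_succ k; have := len_pos k; omega
  refine ⟨12 * len k + 2, by omega, ?_⟩
  have hl1 : (1 : ℝ) ≤ len k := by exact_mod_cast len_pos k
  have hx1 : (1 : ℝ) ≤ ((12 * len k + 2 : ℕ) : ℝ) := by push_cast; linarith
  have hxpos : (0 : ℝ) < ((12 * len k + 2 : ℕ) : ℝ) := by linarith
  rw [le_div_iff₀ (Real.rpow_pos_of_pos hxpos c)]
  have h1 : ((12 * len k + 2 : ℕ) : ℝ) ^ c ≤ 14 * (len k : ℝ) ^ (ex k) := by
    calc ((12 * len k + 2 : ℕ) : ℝ) ^ c ≤ ((12 * len k + 2 : ℕ) : ℝ) ^ e :=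
          Real.rpow_le_rpow_of_exponent_le hx1 (le_max_left _ _)
      _ ≤ (14 * (len k : ℝ)) ^ e := by
          apply Real.rpow_le_rpow hxpos.le _ he0
          push_cast; linarith
      _ = 14 ^ e * (len k : ℝ) ^ e := by
          rw [Real.mul_rpow (by norm_num) (by linarith)]
      _ ≤ 14 * (len k : ℝ) ^ (ex k) := by
          apply mul_le_mul
          · calc (14 : ℝ) ^ e ≤ 14 ^ (1 : ℝ) :=
                Real.rpow_le_rpow_of_exponent_le (by norm_num) he1.le
              _ = 14 := Real.rpow_one _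
          · exact Real.rpow_le_rpow_of_exponent_le hl1 hk2
          · positivity
          · norm_num
  have h2 : (0 : ℝ) ≤ ((12 * len k + 2 : ℕ) : ℝ) ^ c := (Real.rpow_pos_of_pos hxpos c).le
  calc C * ((12 * len k + 2 : ℕ) : ℝ) ^ c ≤ max C 0 * ((12 * len k + 2 : ℕ) : ℝ) ^ c :=
        mul_le_mul_of_nonneg_right (le_max_left _ _) h2
    _ ≤ max C 0 * (14 * (len k : ℝ) ^ (ex k)) :=
        mul_le_mul_of_nonneg_left h1 (le_max_right _ _)
    _ = (max C 0 * 14) * (len k : ℝ) ^ (ex k) := by ring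
    _ ≤ (k : ℝ) * (len k : ℝ) ^ (ex k) := by
        apply mul_le_mul_of_nonneg_right hk3
        positivity
    _ ≤ rothNumberNat (len k) := len_roth k
    _ ≤ cnt (M0 ∪ M' A) (12 * len k + 2) := by exact_mod_cast cnt_ge k

theorem limsup_top (c : ℝ) (hc : c < 1) :
    limsup (fun x : ℕ => (((cnt (M0 ∪ M' A) x : ℝ) / (x : ℝ) ^ c : ℝ) : EReal)) atTop = ⊤ := by
  rw [EReal.eq_top_iff_forall_lt]
  intro y
  have h : ((y + 1 : ℝ) : EReal) ≤
      limsup (fun x : ℕ => (((cnt (M0 ∪ M' A) x : ℝ) / (x : ℝ) ^ c : ℝ) : EReal)) atTop := by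
    apply le_limsup_of_frequently_le'
    refine (freq c hc (y + 1)).mono ?_
    intro x hx
    exact EReal.coe_le_coe_iff.2 hx
  refine lt_of_lt_of_le ?_ h
  exact EReal.coe_lt_coe_iff.2 (by linarith)

/-- There is an extension `R = M₀ ∪ M'` of the base ruleset with
`limsup A_R(x) / x ^ (log 2 / log 3) = ∞`; in fact with `limsup A_R(x) / x ^ c = ∞` for every
`c < 1`. -/
theorem result :
    ∃ M' : Set (Finset ℕ), (∀ M ∈ M', M.Nonempty ∧ ∀ m ∈ M, 0 < m) ∧
      limsup (fun x : ℕ => (((cnt (M0 ∪ M') x : ℝ) /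
        (x : ℝ) ^ (Real.log 2 / Real.log 3) : ℝ) : EReal)) atTop = ⊤ ∧
      ∀ c : ℝ, c < 1 →
        limsup (fun x : ℕ => (((cnt (M0 ∪ M') x : ℝ) / (x : ℝ) ^ c : ℝ) : EReal)) atTop = ⊤ := by
  refine ⟨M' A, ?_, ?_, limsup_top⟩
  · rintro M ⟨n, hn, rfl⟩
    constructor
    · refine ⟨n, ?_⟩
      rw [mem_mv]
      refine ⟨0, ?_, Or.inl rfl, by omega⟩
      rcases Nat.eq_zero_or_pos n with h | h
      · exact absurd (h ▸ Or.inl rfl) hn
      · exact h
    · intro m hm
      rw [mem_mv] at hm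
      obtain ⟨a, ha, -, rfl⟩ := hm
      omega
  · apply limsup_top
    rw [div_lt_one (Real.log_pos (by norm_num))]
    exact Real.log_lt_log (by norm_num) (by norm_num)

end Pool.Agent.Results.MP_c84e26_co.DenserExtension
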